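import Mathlib

namespace Pool.Agent.Results.MP_f4dda6_al.SparseNets

open Filter Topology

/-! ### Thompson's group -/

/-- `f` restricts to a piecewise linear dyadic homeomorphism of `[0,1]`: it is the identity outside
`[0,1]`, and for some `N` it is affine with slope an integer power of two on each of the intervals
`[j/2^N, (j+1)/2^N]`, `0 ≤ j < 2^N`. -/
def IsThompson (f : ℝ ≃o ℝ) : Prop :=
  (∀ x : ℝ, x ≤ 0 → f x = x) ∧ (∀ x : ℝ, 1 ≤ x → f x = x) ∧
    ∃ N : ℕ, ∀ j : ℕ, j < 2 ^ N → ∃ (a : ℤ) (b : ℝ), ∀ x : ℝ,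
      (j : ℝ) / 2 ^ N ≤ x → x ≤ ((j : ℝ) + 1) / 2 ^ N → f x = 2 ^ a * x + b

/-- A uniform version: slopes between `2^{-M}` and `2^M`, and intercepts in `2^{-M} ℤ`. -/
def Nice (N M : ℕ) (f : ℝ ≃o ℝ) : Prop :=
  ∀ j : ℤ, ∃ a β : ℤ, |a| ≤ M ∧ ∀ x : ℝ,
    (j : ℝ) ≤ 2 ^ N * x → 2 ^ N * x ≤ (j : ℝ) + 1 → f x = 2 ^ a * x + β / 2 ^ M

theorem two_zpow_eq (a : ℤ) (m n : ℕ) (h : a = (m : ℤ) - n) :
    (2 : ℝ) ^ a = 2 ^ m / 2 ^ n := by
  rw [h, zpow_sub₀ (by norm_num), zpow_natCast, zpow_natCast]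

/-- Values at grid points are dyadic with a uniform denominator. -/
theorem nice_of_isThompson {f : ℝ ≃o ℝ} (hf : IsThompson f) : ∃ N M, Nice N M f := by
  obtain ⟨h0, h1, N, hN⟩ := hf
  choose! a b hab using hN
  -- a common bound for the slopes
  obtain ⟨M, hM⟩ : ∃ M : ℕ, ∀ j < 2 ^ N, |a j| ≤ M := by
    refine ⟨∑ j ∈ Finset.range (2 ^ N), (a j).natAbs, fun j hj => ?_⟩
    have := Finset.single_le_sum (f := fun j => (a j).natAbs) (fun i _ => Nat.zero_le _)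
      (Finset.mem_range.2 hj)
    rw [Int.abs_eq_natAbs]
    exact_mod_cast this
  -- values at grid points
  have hval : ∀ j : ℕ, j ≤ 2 ^ N → ∃ c : ℤ, f (j / 2 ^ N) = c / 2 ^ (N + M) := by
    intro j
    induction j with
    | zero => intro _; exact ⟨0, by simp [h0 0 le_rfl]⟩
    | succ j ih =>
      intro hj
      obtain ⟨c, hc⟩ := ih (by omega)
      have e1 := hab j (by omega) (j / 2 ^ N) le_rfl (by gcongr; linarith)
      have e2 := hab j (by omega) (((j : ℝ) + 1) / 2 ^ N) (by gcongr; linarith) le_rfl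
      have hMj := abs_le.1 (hM j (by omega))
      obtain ⟨t, ht⟩ := Int.eq_ofNat_of_zero_le (show 0 ≤ a j + M by omega)
      have e3 : (2 : ℝ) ^ a j = 2 ^ t / 2 ^ M := two_zpow_eq _ _ _ (by omega)
      refine ⟨c + 2 ^ t, ?_⟩
      push_cast
      have e4 : f (((j : ℝ) + 1) / 2 ^ N) = f (j / 2 ^ N) + 2 ^ a j * (1 / 2 ^ N) := by
        rw [e1, e2]; ring
      rw [e4, hc, e3, pow_add]
      field_simp
  refine ⟨N, N + M, fun j => ?_⟩
  have hpow : (0 : ℝ) < 2 ^ N := by positivity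
  rcases lt_or_ge j 0 with hj | hj
  · refine ⟨0, 0, by rw [abs_zero]; positivity, fun x _ hx2 => ?_⟩
    have : x ≤ 0 := by
      have : (j : ℝ) + 1 ≤ 0 := by exact_mod_cast hj
      by_contra hx
      push Not at hx
      have := mul_pos hpow hx
      linarith
    rw [h0 x this]; simp
  · obtain ⟨j, rfl⟩ := Int.eq_ofNat_of_zero_le hj
    rcases lt_or_ge j (2 ^ N) with hj2 | hj2
    · obtain ⟨c, hc⟩ := hval j (by omega)
      have e1 := hab j hj2 (j / 2 ^ N) le_rfl (by gcongr; linarith)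
      have hMj := abs_le.1 (hM j hj2)
      obtain ⟨t, ht⟩ := Int.eq_ofNat_of_zero_le (show 0 ≤ a j + M by omega)
      have e3 : (2 : ℝ) ^ a j = 2 ^ t / 2 ^ M := two_zpow_eq _ _ _ (by omega)
      refine ⟨a j, c - 2 ^ t * j, ?_, fun x hx1 hx2 => ?_⟩
      · refine (hM j hj2).trans ?_
        push_cast
        linarith [Nat.zero_le N]
      · rw [hab j hj2 x (by rw [div_le_iff₀ hpow]; push_cast at hx1; linarith)
          (by rw [le_div_iff₀ hpow]; push_cast at hx2; linarith)]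
        congr 1
        rw [hc, e3] at e1
        push_cast
        have e5 : b j = (c : ℝ) / 2 ^ (N + M) - 2 ^ t / 2 ^ M * (j / 2 ^ N) := by linarith
        rw [e5, pow_add]
        field_simp
    · refine ⟨0, 0, by rw [abs_zero]; positivity, fun x hx1 _ => ?_⟩
      have : (1 : ℝ) ≤ x := by
        have h2 : ((2 ^ N : ℕ) : ℝ) ≤ j := by exact_mod_cast hj2
        push_cast at h2 hx1
        have h3 : (2 : ℝ) ^ N * 1 ≤ 2 ^ N * x := by linarith
        exact le_of_mul_le_mul_left h3 hpow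
      rw [h1 x this]; simp

/-- A map which is nice and the identity outside `[0,1]` is in Thompson's group. -/
theorem isThompson_of_nice {f : ℝ ≃o ℝ} (h0 : ∀ x : ℝ, x ≤ 0 → f x = x)
    (h1 : ∀ x : ℝ, 1 ≤ x → f x = x) (N : ℕ)
    (h : ∀ j : ℤ, ∃ (a : ℤ) (b : ℝ), ∀ x : ℝ,
      (j : ℝ) ≤ 2 ^ N * x → 2 ^ N * x ≤ (j : ℝ) + 1 → f x = 2 ^ a * x + b) : IsThompson f := by
  refine ⟨h0, h1, N, fun j _ => ?_⟩
  obtain ⟨a, b, hab⟩ := h j
  have hpow : (0 : ℝ) < 2 ^ N := by positivity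
  refine ⟨a, b, fun x hx1 hx2 => hab x ?_ ?_⟩
  · rw [div_le_iff₀ hpow] at hx1; push_cast; linarith
  · rw [le_div_iff₀ hpow] at hx2; push_cast; linarith

theorem isThompson_mul {f g : ℝ ≃o ℝ} (hf : IsThompson f) (hg : IsThompson g) :
    IsThompson (f * g) := by
  obtain ⟨Nf, Mf, hNf⟩ := nice_of_isThompson hf
  obtain ⟨Ng, Mg, hNg⟩ := nice_of_isThompson hg
  refine isThompson_of_nice (fun x hx => ?_) (fun x hx => ?_) (Ng + Nf + 2 * Mg) fun i => ?_
  · rw [RelIso.mul_apply, hg.1 x hx, hf.1 x hx]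
  · rw [RelIso.mul_apply, hg.2.1 x hx, hf.2.1 x hx]
  · -- the interval of `g`
    set d : ℕ := Nf + 2 * Mg with hd
    have hdpos : (0 : ℤ) < 2 ^ d := by positivity
    obtain ⟨a, β, ha, hab⟩ := hNg (i / 2 ^ d)
    have ha' := abs_le.1 ha
    have q1 : 2 ^ d * (i / 2 ^ d) ≤ i := Int.mul_ediv_self_le hdpos.ne'
    have q2 : i < 2 ^ d * (i / 2 ^ d) + 2 ^ d := Int.lt_mul_ediv_self_add hdpos
    have hsub : ∀ x : ℝ, (i : ℝ) ≤ 2 ^ (Ng + Nf + 2 * Mg) * x →
        2 ^ (Ng + Nf + 2 * Mg) * x ≤ (i : ℝ) + 1 → g x = 2 ^ a * x + β / 2 ^ Mg := by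
      intro x hx1 hx2
      have e1 : (2 : ℝ) ^ (Ng + Nf + 2 * Mg) = 2 ^ d * 2 ^ Ng := by rw [hd, ← pow_add]; ring_nf
      rw [e1, mul_assoc] at hx1 hx2
      have hdp : (0 : ℝ) < 2 ^ d := by positivity
      apply hab
      · have h1 : ((2 : ℝ) ^ d * (i / 2 ^ d : ℤ)) ≤ i := by exact_mod_cast q1
        exact le_of_mul_le_mul_left (h1.trans hx1) hdp
      · have h1 : (i : ℝ) + 1 ≤ 2 ^ d * ((i / 2 ^ d : ℤ) + 1) := by
          have : i + 1 ≤ 2 ^ d * (i / 2 ^ d) + 2 ^ d := q2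
          have h2 : ((i + 1 : ℤ) : ℝ) ≤ ((2 ^ d * (i / 2 ^ d) + 2 ^ d : ℤ) : ℝ) := by
            exact_mod_cast this
          push_cast at h2
          linarith
        exact le_of_mul_le_mul_left (hx2.trans h1) hdp
    -- the image is a standard dyadic interval
    obtain ⟨t, ht⟩ := Int.eq_ofNat_of_zero_le (show 0 ≤ Mg - a by omega)
    -- level of the image: `Ng + Nf + 2 Mg - a = Nf + (Ng + Mg + t)`
    set r : ℕ := Ng + Mg + t with hr
    have hrpos : (0 : ℤ) < 2 ^ r := by positivity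
    set i' : ℤ := i + β * 2 ^ (Ng + Nf + t) with hi'
    obtain ⟨a', β', _, hab'⟩ := hNf (i' / 2 ^ r)
    have p1 : 2 ^ r * (i' / 2 ^ r) ≤ i' := Int.mul_ediv_self_le hrpos.ne'
    have p2 : i' < 2 ^ r * (i' / 2 ^ r) + 2 ^ r := Int.lt_mul_ediv_self_add hrpos
    refine ⟨a' + a, 2 ^ a' * (β / 2 ^ Mg) + β' / 2 ^ Mf, fun x hx1 hx2 => ?_⟩
    rw [RelIso.mul_apply, hsub x hx1 hx2]
    have e2 : (2 : ℝ) ^ a = 2 ^ Mg / 2 ^ t := two_zpow_eq _ _ _ (by omega)
    have hrp : (0 : ℝ) < 2 ^ r := by positivity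
    have e3 : (2 : ℝ) ^ r * (2 ^ Nf * (2 ^ a * x + β / 2 ^ Mg)) =
        2 ^ (Ng + Nf + 2 * Mg) * x + β * 2 ^ (Ng + Nf + t) := by
      rw [e2, hr]
      field_simp
      ring
    rw [hab' (2 ^ a * x + β / 2 ^ Mg)]
    · rw [zpow_add₀ (by norm_num)]; ring
    · have h1 : ((2 : ℝ) ^ r * (i' / 2 ^ r : ℤ)) ≤ i' := by exact_mod_cast p1
      refine le_of_mul_le_mul_left (h1.trans ?_) hrp
      rw [e3, hi']
      push_cast
      linarith
    · have h1 : (i' : ℝ) + 1 ≤ 2 ^ r * ((i' / 2 ^ r : ℤ) + 1) := by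
        have : i' + 1 ≤ 2 ^ r * (i' / 2 ^ r) + 2 ^ r := p2
        have h2 : ((i' + 1 : ℤ) : ℝ) ≤ ((2 ^ r * (i' / 2 ^ r) + 2 ^ r : ℤ) : ℝ) := by
          exact_mod_cast this
        push_cast at h2
        linarith
      refine le_of_mul_le_mul_left (le_trans ?_ h1) hrp
      rw [e3, hi']
      push_cast
      linarith

theorem isThompson_one : IsThompson 1 :=
  isThompson_of_nice (fun _ _ => rfl) (fun _ _ => rfl) 0 fun _ => ⟨0, 0, fun x _ _ => by simp⟩

theorem isThompson_inv {f : ℝ ≃o ℝ} (hf : IsThompson f) : IsThompson f⁻¹ := by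
  obtain ⟨N, M, hN⟩ := nice_of_isThompson hf
  have hinv : ∀ x y : ℝ, f x = y → f⁻¹ y = x := by
    rintro x _ rfl
    exact RelIso.inv_apply_self f x
  refine isThompson_of_nice (fun x hx => hinv _ _ (hf.1 x hx)) (fun x hx => hinv _ _ (hf.2.1 x hx))
    (N + M) fun i => ?_
  have hpowM : (0 : ℝ) < 2 ^ (N + M) := by positivity
  have hpowN : (0 : ℝ) < 2 ^ N := by positivity
  set x₀ : ℝ := f⁻¹ ((i : ℝ) / 2 ^ (N + M)) with hx₀
  have hfx₀ : f x₀ = (i : ℝ) / 2 ^ (N + M) := RelIso.apply_inv_self f _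
  set j : ℤ := ⌊2 ^ N * x₀⌋ with hj
  have hj1 : (j : ℝ) ≤ 2 ^ N * x₀ := Int.floor_le _
  have hj2 : 2 ^ N * x₀ < j + 1 := Int.lt_floor_add_one _
  obtain ⟨a, β, ha, hab⟩ := hN j
  have ha' := abs_le.1 ha
  obtain ⟨t, ht⟩ := Int.eq_ofNat_of_zero_le (show 0 ≤ M + a by omega)
  have e2 : (2 : ℝ) ^ a = 2 ^ t / 2 ^ M := two_zpow_eq _ _ _ (by omega)
  have hapos : (0 : ℝ) < 2 ^ a := by positivity
  -- the right end point
  set x₁ : ℝ := ((j : ℝ) + 1) / 2 ^ N with hx₁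
  have hx₁' : 2 ^ N * x₁ = j + 1 := by rw [hx₁]; field_simp
  have hfx₁ : f x₁ = ((2 ^ t * (j + 1) + β * 2 ^ N : ℤ) : ℝ) / 2 ^ (N + M) := by
    rw [hab x₁ (by rw [hx₁']; linarith) (by rw [hx₁']), e2, hx₁, pow_add]
    push_cast
    field_simp
  have hlt : (i : ℝ) / 2 ^ (N + M) < f x₁ := by
    rw [← hfx₀]
    apply f.strictMono
    have : 2 ^ N * x₀ < 2 ^ N * x₁ := by rw [hx₁']; exact hj2
    exact lt_of_mul_lt_mul_left this hpowN.le
  have hle : ((i : ℝ) + 1) / 2 ^ (N + M) ≤ f x₁ := by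
    rw [hfx₁] at hlt ⊢
    rw [div_lt_div_iff_of_pos_right hpowM] at hlt
    rw [div_le_div_iff_of_pos_right hpowM]
    have : i < 2 ^ t * (j + 1) + β * 2 ^ N := by exact_mod_cast hlt
    exact_mod_cast this
  refine ⟨-a, -(2 ^ (-a) * (β / 2 ^ M)), fun y hy1 hy2 => ?_⟩
  set x : ℝ := f⁻¹ y with hx
  have hfx : f x = y := RelIso.apply_inv_self f _
  have h1 : x₀ ≤ x := by
    rw [← f.le_iff_le, hfx₀, hfx, div_le_iff₀ hpowM]; linarith
  have h2 : x ≤ x₁ := by
    rw [← f.le_iff_le, hfx]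
    refine le_trans ?_ hle
    rw [le_div_iff₀ hpowM]; linarith
  have h3 : f x = 2 ^ a * x + β / 2 ^ M := by
    apply hab
    · calc (j : ℝ) ≤ 2 ^ N * x₀ := hj1
        _ ≤ _ := by gcongr
    · rw [← hx₁']; gcongr
  rw [hfx] at h3
  have h4 : x = 2 ^ (-a) * (2 ^ a * x) := by
    rw [← mul_assoc, ← zpow_add₀ (by norm_num)]; simp
  rw [h4, show (2 : ℝ) ^ a * x = y - β / 2 ^ M by linarith]
  ring

/-- Thompson's group `F`, acting on the line and supported on `[0,1]`. -/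
def thompson : Subgroup (ℝ ≃o ℝ) where
  carrier := {f | IsThompson f}
  mul_mem' := isThompson_mul
  one_mem' := isThompson_one
  inv_mem' := isThompson_inv

/-- Thompson's group `F`. -/
abbrev F : Type := ↥thompson


/-! ### The elementary elements -/

/-- Slope `1/2` on `[p, p+2h]` and slope `2` on `[p+2h, p+3h]`. -/
noncomputable def tFun (p h x : ℝ) : ℝ :=
  if x ≤ p then x else if x ≤ p + 2 * h then p + (x - p) / 2 else
    if x ≤ p + 3 * h then p + h + 2 * (x - p - 2 * h) else x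

/-- The inverse of `tFun`. -/
noncomputable def tInv (p h x : ℝ) : ℝ :=
  if x ≤ p then x else if x ≤ p + h then p + 2 * (x - p) else
    if x ≤ p + 3 * h then p + 2 * h + (x - p - h) / 2 else x

theorem tFun_strictMono (p h : ℝ) (hh : 0 < h) : StrictMono (tFun p h) := by
  intro x y hxy
  unfold tFun
  split_ifs <;> linarith

theorem tFun_tInv (p h : ℝ) (hh : 0 < h) (x : ℝ) : tFun p h (tInv p h x) = x := by
  unfold tFun tInv
  split_ifs <;> linarith

theorem tInv_tFun (p h : ℝ) (hh : 0 < h) (x : ℝ) : tInv p h (tFun p h x) = x := by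
  unfold tFun tInv
  split_ifs <;> linarith

/-- The order isomorphism `tFun`. -/
noncomputable def tIso (p h : ℝ) (hh : 0 < h) : ℝ ≃o ℝ where
  toFun := tFun p h
  invFun := tInv p h
  left_inv := tInv_tFun p h hh
  right_inv := tFun_tInv p h hh
  map_rel_iff' := (tFun_strictMono p h hh).le_iff_le

theorem tIso_apply (p h : ℝ) (hh : 0 < h) (x : ℝ) : tIso p h hh x = tFun p h x := rfl

theorem tIso_isThompson (N k : ℕ) (hk : k + 3 ≤ 2 ^ N) :
    IsThompson (tIso ((k : ℝ) / 2 ^ N) (1 / 2 ^ N) (by positivity)) := by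
  have hpow : (0 : ℝ) < 2 ^ N := by positivity
  have hk' : (k : ℝ) + 3 ≤ 2 ^ N := by exact_mod_cast hk
  have hend : (k : ℝ) / 2 ^ N + 3 * (1 / 2 ^ N) ≤ 1 := by
    rw [mul_one_div, ← add_div, div_le_one hpow]; exact hk'
  refine isThompson_of_nice (fun x hx => ?_) (fun x hx => ?_) N fun j => ?_
  · rw [tIso_apply, tFun, if_pos (hx.trans (by positivity))]
  · rw [tIso_apply, tFun]
    have h3 : (0 : ℝ) < 1 / 2 ^ N := by positivity
    split_ifs <;> linarith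
  · have hx : ∀ x : ℝ, x = (2 ^ N * x) / 2 ^ N := fun x => by field_simp
    rcases lt_or_ge j k with h1 | h1
    · refine ⟨0, 0, fun x _ hx2 => ?_⟩
      have h2 : (j : ℝ) + 1 ≤ k := by exact_mod_cast h1
      rw [tIso_apply, tFun, if_pos]
      · simp
      · rw [hx x, div_le_div_iff_of_pos_right hpow]; linarith
    · rcases lt_or_ge j (k + 2) with h2 | h2
      · refine ⟨-1, (k : ℝ) / 2 ^ N / 2, fun x hx1 hx2 => ?_⟩
        have h3 : (k : ℝ) ≤ j := by exact_mod_cast h1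
        have h4 : (j : ℝ) + 1 ≤ k + 2 := by exact_mod_cast h2
        have h5 : (k : ℝ) / 2 ^ N ≤ x := by
          rw [hx x, div_le_div_iff_of_pos_right hpow]; linarith
        have h6 : x ≤ (k : ℝ) / 2 ^ N + 2 * (1 / 2 ^ N) := by
          rw [mul_one_div, ← add_div, hx x, div_le_div_iff_of_pos_right hpow]; linarith
        rw [tIso_apply, tFun]
        rw [show (2 : ℝ) ^ (-1 : ℤ) = 1 / 2 by norm_num]
        split_ifs <;> linarith
      · rcases lt_or_ge j (k + 3) with h3 | h3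
        · refine ⟨1, (k : ℝ) / 2 ^ N + 1 / 2 ^ N - 2 * ((k : ℝ) / 2 ^ N + 2 * (1 / 2 ^ N)),
            fun x hx1 hx2 => ?_⟩
          have h4 : (k : ℝ) + 2 ≤ j := by exact_mod_cast h2
          have h5 : (j : ℝ) + 1 ≤ k + 3 := by exact_mod_cast h3
          have h6 : (k : ℝ) / 2 ^ N + 2 * (1 / 2 ^ N) ≤ x := by
            rw [mul_one_div, ← add_div, hx x, div_le_div_iff_of_pos_right hpow]; linarith
          have h7 : x ≤ (k : ℝ) / 2 ^ N + 3 * (1 / 2 ^ N) := by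
            rw [mul_one_div, ← add_div, hx x, div_le_div_iff_of_pos_right hpow]; linarith
          have h8 : (0 : ℝ) < 1 / 2 ^ N := by positivity
          rw [tIso_apply, tFun, zpow_one]
          split_ifs <;> linarith
        · refine ⟨0, 0, fun x hx1 _ => ?_⟩
          have h4 : (k : ℝ) + 3 ≤ j := by exact_mod_cast h3
          have h6 : (k : ℝ) / 2 ^ N + 3 * (1 / 2 ^ N) ≤ x := by
            rw [mul_one_div, ← add_div, hx x, div_le_div_iff_of_pos_right hpow]; linarith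
          have h8 : (0 : ℝ) < 1 / 2 ^ N := by positivity
          rw [tIso_apply, tFun, zpow_zero, one_mul, add_zero]
          split_ifs <;> linarith

/-- The element of `F` with parameters `k`, `N`. -/
noncomputable def T (N k : ℕ) (hk : k + 3 ≤ 2 ^ N) : F := ⟨_, tIso_isThompson N k hk⟩

theorem T_apply (N k : ℕ) (hk : k + 3 ≤ 2 ^ N) (x : ℝ) :
    (T N k hk : ℝ ≃o ℝ) x = tFun ((k : ℝ) / 2 ^ N) (1 / 2 ^ N) x := rfl

theorem T_inv_apply (N k : ℕ) (hk : k + 3 ≤ 2 ^ N) (x : ℝ) :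
    (((T N k hk)⁻¹ : F) : ℝ ≃o ℝ) x = tInv ((k : ℝ) / 2 ^ N) (1 / 2 ^ N) x := rfl

theorem mul_apply (f g : F) (x : ℝ) : ((f * g : F) : ℝ ≃o ℝ) x = (f : ℝ ≃o ℝ) ((g : ℝ ≃o ℝ) x) :=
  rfl

theorem inv_apply_self (f : F) (x : ℝ) : ((f⁻¹ : F) : ℝ ≃o ℝ) ((f : ℝ ≃o ℝ) x) = x :=
  RelIso.inv_apply_self _ _

theorem apply_inv_self (f : F) (x : ℝ) : (f : ℝ ≃o ℝ) (((f⁻¹ : F) : ℝ ≃o ℝ) x) = x :=
  RelIso.apply_inv_self _ _

/-- Lower bound at the origin. -/
theorem lower (f : F) : ∃ m : ℕ, ∀ x : ℝ, 0 ≤ x → x ≤ 1 → x / 2 ^ m ≤ (f : ℝ ≃o ℝ) x := by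
  obtain ⟨h0, h1, -⟩ := f.2
  obtain ⟨N, M, hN⟩ := nice_of_isThompson f.2
  obtain ⟨a, β, ha, hab⟩ := hN 0
  have ha' := abs_le.1 ha
  have hpow : (0 : ℝ) < 2 ^ N := by positivity
  have e0 := hab 0 (by simp) (by simp)
  rw [h0 0 le_rfl, mul_zero, zero_add] at e0
  have hab' : ∀ x : ℝ, 0 ≤ x → 2 ^ N * x ≤ 1 → (f : ℝ ≃o ℝ) x = 2 ^ a * x := by
    intro x hx1 hx2
    rw [hab x (by simp; positivity) (by simpa using hx2), ← e0, add_zero]
  obtain ⟨t, ht⟩ := Int.eq_ofNat_of_zero_le (show 0 ≤ M + a by omega)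
  have e2 : (2 : ℝ) ^ a = 2 ^ t / 2 ^ M := two_zpow_eq _ _ _ (by omega)
  have e3 : (1 : ℝ) / 2 ^ M ≤ 2 ^ a := by
    rw [e2]; gcongr; exact one_le_pow₀ (by norm_num)
  refine ⟨N + M, fun x hx0 hx1 => ?_⟩
  rcases le_or_gt (2 ^ N * x) 1 with h | h
  · rw [hab' x hx0 h]
    calc x / 2 ^ (N + M) ≤ x / 2 ^ M := by
          apply div_le_div_of_nonneg_left hx0 (by positivity)
          exact pow_le_pow_right₀ (by norm_num) (by omega)
      _ = 1 / 2 ^ M * x := by ring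
      _ ≤ _ := by gcongr
  · have h2 : (1 : ℝ) / 2 ^ N ≤ x := by rw [div_le_iff₀ hpow]; linarith
    calc x / 2 ^ (N + M) ≤ 1 / 2 ^ (N + M) := by gcongr
      _ = 1 / 2 ^ M * (1 / 2 ^ N) := by rw [pow_add]; field_simp
      _ ≤ 2 ^ a * (1 / 2 ^ N) := by gcongr
      _ = (f : ℝ ≃o ℝ) (1 / 2 ^ N) := by
          rw [hab' _ (by positivity)]
          rw [mul_one_div, div_self hpow.ne']
      _ ≤ _ := (f : ℝ ≃o ℝ).monotone h2

theorem maps_unit (f : F) (x : ℝ) (h0 : 0 ≤ x) (h1 : x ≤ 1) :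
    0 ≤ (f : ℝ ≃o ℝ) x ∧ (f : ℝ ≃o ℝ) x ≤ 1 := by
  constructor
  · rw [← f.2.1 0 le_rfl]; exact (f : ℝ ≃o ℝ).monotone h0
  · rw [← f.2.2.1 1 le_rfl]; exact (f : ℝ ≃o ℝ).monotone h1


/-! ### The subgroup -/

/-- The points of the `m`-th net: the `2^m + 1` points of a uniform grid of the dyadic interval
`[2^{-4^m-2}, 2^{-4^m-1}]`. -/
noncomputable def pt (m i : ℕ) : ℝ := (1 + (i : ℝ) / 2 ^ m) / 2 ^ (4 ^ m + 2)

/-- The pointwise stabiliser of the union of the nets. -/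
def H : Subgroup F where
  carrier := {f | ∀ m i : ℕ, i ≤ 2 ^ m → (f : ℝ ≃o ℝ) (pt m i) = pt m i}
  mul_mem' := by
    intro a b ha hb m i hi
    rw [mul_apply, hb m i hi, ha m i hi]
  one_mem' := fun _ _ _ => rfl
  inv_mem' := by
    intro a ha m i hi
    conv_lhs => rw [← ha m i hi]
    exact inv_apply_self a _

theorem mem_H {f : F} : f ∈ H ↔ ∀ m i : ℕ, i ≤ 2 ^ m → (f : ℝ ≃o ℝ) (pt m i) = pt m i := Iff.rfl

/-- A subgroup is confined if some finite set of nontrivial elements meets all its conjugates. -/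
def Confined (H : Subgroup F) : Prop :=
  ∃ Q : Finset F, (1 : F) ∉ Q ∧ ∀ g : F, ∃ q ∈ Q, g * q * g⁻¹ ∈ H

/-- Doubling near the origin. -/
noncomputable def E : F := (T 2 0 (by norm_num))⁻¹

theorem E_pow (r : ℕ) (x : ℝ) (hx : 0 < x) (h : 2 ^ r * x ≤ 1 / 2) :
    ((E ^ r : F) : ℝ ≃o ℝ) x = 2 ^ r * x := by
  induction r with
  | zero => rw [pow_zero, pow_zero, one_mul]; rfl
  | succ r ih =>
    have h1 : (2 : ℝ) ^ r * x ≤ 1 / 4 := by rw [pow_succ'] at h; linarith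
    rw [pow_succ', mul_apply, ih (by linarith), E, T_inv_apply, tInv]
    have h2 : (0 : ℝ) < 2 ^ r * x := by positivity
    norm_num
    rw [if_neg (by linarith), if_pos h1, pow_succ']
    ring

/-- Pushes `1/4` towards `0`. -/
noncomputable def κ₁ : F := T 3 0 (by norm_num)
/-- Pushes `1/2` towards `1`. -/
noncomputable def κ₂ : F := (T 2 1 (by norm_num))⁻¹

theorem κ₁_pow (j : ℕ) : ((κ₁ ^ j : F) : ℝ ≃o ℝ) (1 / 4) = 1 / 4 / 2 ^ j := by
  induction j with
  | zero => rw [pow_zero, pow_zero, div_one]; rfl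
  | succ j ih =>
    rw [pow_succ', mul_apply, ih, κ₁, T_apply, tFun]
    have h1 : (0 : ℝ) < 1 / 4 / 2 ^ j := by positivity
    have h2 : (1 : ℝ) / 4 / 2 ^ j ≤ 1 / 4 := div_le_self (by norm_num) (one_le_pow₀ (by norm_num))
    have h3 : (1 : ℝ) / 4 / 2 ^ (j + 1) = 1 / 4 / 2 ^ j / 2 := by rw [pow_succ, ← div_div]
    rw [h3]
    generalize (1 : ℝ) / 4 / 2 ^ j = t at h1 h2
    have e1 : ((0 : ℕ) : ℝ) / 2 ^ 3 = 0 := by norm_num
    have e2 : (1 : ℝ) / 2 ^ 3 = 1 / 8 := by norm_num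
    rw [e1, e2]
    split_ifs <;> linarith

theorem κ₁_pow_fix (j : ℕ) (x : ℝ) (hx : 3 / 8 ≤ x) : ((κ₁ ^ j : F) : ℝ ≃o ℝ) x = x := by
  induction j with
  | zero => rw [pow_zero]; rfl
  | succ j ih =>
    rw [pow_succ', mul_apply, ih, κ₁, T_apply, tFun]
    have e1 : ((0 : ℕ) : ℝ) / 2 ^ 3 = 0 := by norm_num
    have e2 : (1 : ℝ) / 2 ^ 3 = 1 / 8 := by norm_num
    rw [e1, e2]
    split_ifs <;> linarith

theorem κ₂_pow (j : ℕ) : ((κ₂ ^ j : F) : ℝ ≃o ℝ) (1 / 2) = 1 - 1 / 2 ^ (j + 1) := by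
  induction j with
  | zero => rw [pow_zero]; norm_num
  | succ j ih =>
    rw [pow_succ', mul_apply, ih, κ₂, T_inv_apply, tInv]
    have h1 : (0 : ℝ) < 1 / 2 ^ (j + 1) := by positivity
    have h2 : (1 : ℝ) / 2 ^ (j + 1) ≤ 1 / 2 := by
      rw [pow_succ, ← div_div]
      apply div_le_div_of_nonneg_right _ (by norm_num)
      exact div_le_self (by norm_num) (one_le_pow₀ (by norm_num))
    have h3 : (1 : ℝ) / 2 ^ (j + 1 + 1) = 1 / 2 ^ (j + 1) / 2 := by rw [pow_succ, ← div_div]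
    rw [h3]
    generalize (1 : ℝ) / 2 ^ (j + 1) = t at h1 h2
    norm_num
    split_ifs <;> linarith

theorem κ₂_pow_fix (j : ℕ) : ((κ₂ ^ j : F) : ℝ ≃o ℝ) (1 / 4) = 1 / 4 := by
  induction j with
  | zero => rw [pow_zero]; rfl
  | succ j ih =>
    rw [pow_succ', mul_apply, ih, κ₂, T_inv_apply, tInv]
    norm_num

theorem exists_moved (q : F) (hq : q ≠ 1) : ∃ x : ℝ, 0 < x ∧ x < 1 ∧ (q : ℝ ≃o ℝ) x ≠ x := by
  by_contra hcon
  push Not at hcon
  apply hq
  apply Subtype.ext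
  apply RelIso.ext
  intro x
  rcases le_or_gt x 0 with h | h
  · exact q.2.1 x h
  · rcases le_or_gt 1 x with h1 | h1
    · exact q.2.2.1 x h1
    · exact hcon x h h1

theorem not_confined : ¬ Confined H := by
  rintro ⟨Q, h1, hQ⟩
  have hmv : ∀ q ∈ Q, ∃ x : ℝ, 0 < x ∧ x < 1 ∧ (q : ℝ ≃o ℝ) x ≠ x := by
    intro q hq
    exact exists_moved q fun h => h1 (h ▸ hq)
  choose! x hx0 hx1 hx using hmv
  -- choose the expansion exponent
  have hj : ∀ᶠ j : ℕ in atTop, ∀ q ∈ Q, (1 : ℝ) / 4 / 2 ^ j < x q ∧ x q < 1 - 1 / 2 ^ (j + 1) := by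
    rw [Filter.eventually_all_finset]
    intro q hq
    have t1 : Tendsto (fun j : ℕ => (1 : ℝ) / 4 / 2 ^ j) atTop (𝓝 0) := by
      have := tendsto_pow_atTop_nhds_zero_of_lt_one (r := (1 / 2 : ℝ)) (by norm_num) (by norm_num)
      have := this.const_mul (1 / 4 : ℝ)
      rw [mul_zero] at this
      refine this.congr fun j => ?_
      rw [one_div_pow]; ring
    have t2 : Tendsto (fun j : ℕ => 1 - (1 : ℝ) / 2 ^ (j + 1)) atTop (𝓝 1) := by
      have := tendsto_pow_atTop_nhds_zero_of_lt_one (r := (1 / 2 : ℝ)) (by norm_num) (by norm_num)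
      have := ((tendsto_add_atTop_iff_nat 1).2 this).const_sub 1
      rw [sub_zero] at this
      refine this.congr fun j => ?_
      rw [one_div_pow]
    exact ((tendsto_order.1 t1).2 _ (hx0 q hq)).and ((tendsto_order.1 t2).1 _ (hx1 q hq))
  obtain ⟨j, hj⟩ := hj.exists
  set k : F := κ₁ ^ j * κ₂ ^ j with hk
  have hk1 : (k : ℝ ≃o ℝ) (1 / 4) = 1 / 4 / 2 ^ j := by
    rw [hk, mul_apply, κ₂_pow_fix, κ₁_pow]
  have hk2 : (k : ℝ ≃o ℝ) (1 / 2) = 1 - 1 / 2 ^ (j + 1) := by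
    rw [hk, mul_apply, κ₂_pow, κ₁_pow_fix]
    have h2 : (1 : ℝ) / 2 ^ (j + 1) ≤ 1 / 2 := by
      rw [pow_succ, ← div_div]
      apply div_le_div_of_nonneg_right _ (by norm_num)
      exact div_le_self (by norm_num) (one_le_pow₀ (by norm_num))
    linarith
  clear_value k
  -- neighbourhoods
  have hη : ∀ q ∈ Q, ∃ y η : ℝ, 1 / 4 < y ∧ y < 1 / 2 ∧ 0 < η ∧ ∀ y', |y' - y| < η →
      (q : ℝ ≃o ℝ) ((k : ℝ ≃o ℝ) y') ≠ (k : ℝ ≃o ℝ) y' := by
    intro q hq
    set y : ℝ := ((k⁻¹ : F) : ℝ ≃o ℝ) (x q) with hy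
    have hky : (k : ℝ ≃o ℝ) y = x q := apply_inv_self k _
    have hopen : IsOpen {y' : ℝ | (q : ℝ ≃o ℝ) ((k : ℝ ≃o ℝ) y') ≠ (k : ℝ ≃o ℝ) y'} :=
      isOpen_ne_fun ((q : ℝ ≃o ℝ).continuous.comp (k : ℝ ≃o ℝ).continuous)
        (k : ℝ ≃o ℝ).continuous
    have hmem : y ∈ {y' : ℝ | (q : ℝ ≃o ℝ) ((k : ℝ ≃o ℝ) y') ≠ (k : ℝ ≃o ℝ) y'} := by
      show (q : ℝ ≃o ℝ) ((k : ℝ ≃o ℝ) y) ≠ (k : ℝ ≃o ℝ) y
      rw [hky]; exact hx q hq
    obtain ⟨η, hη, hball⟩ := Metric.isOpen_iff.1 hopen y hmem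
    refine ⟨y, η, ?_, ?_, hη, fun y' hy' => hball (by rw [Metric.mem_ball, Real.dist_eq]; exact hy')⟩
    · rw [← (k : ℝ ≃o ℝ).lt_iff_lt, hk1, hky]; exact (hj q hq).1
    · rw [← (k : ℝ ≃o ℝ).lt_iff_lt, hk2, hky]; exact (hj q hq).2
  choose! y η hy1 hy2 hηpos hη using hη
  have hm : ∀ᶠ m : ℕ in atTop, ∀ q ∈ Q, (1 : ℝ) / 2 ^ (m + 2) < η q := by
    rw [Filter.eventually_all_finset]
    intro q hq
    have t1 : Tendsto (fun m : ℕ => (1 : ℝ) / 2 ^ (m + 2)) atTop (𝓝 0) := by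
      have := tendsto_pow_atTop_nhds_zero_of_lt_one (r := (1 / 2 : ℝ)) (by norm_num) (by norm_num)
      refine ((tendsto_add_atTop_iff_nat 2).2 this).congr fun j => ?_
      rw [one_div_pow]
    exact (tendsto_order.1 t1).2 _ (hηpos q hq)
  obtain ⟨m, hm⟩ := hm.exists
  obtain ⟨q, hqQ, hqH⟩ := hQ (k * E ^ (4 ^ m))⁻¹
  have hp2 : (0 : ℝ) < 2 ^ m := by positivity
  -- the grid point
  set i : ℕ := ⌊(4 * y q - 1) * 2 ^ m⌋₊ with hi
  have hynn : 0 ≤ (4 * y q - 1) * 2 ^ m := by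
    have := hy1 q hqQ
    apply mul_nonneg (by linarith) hp2.le
  have hi1 : (i : ℝ) ≤ (4 * y q - 1) * 2 ^ m := Nat.floor_le hynn
  have hi2 : (4 * y q - 1) * 2 ^ m < i + 1 := Nat.lt_floor_add_one _
  have hile : i ≤ 2 ^ m := by
    have h3 : (i : ℝ) ≤ 2 ^ m := by
      have := hy2 q hqQ
      nlinarith
    exact_mod_cast h3
  have hfix := mem_H.1 hqH m i hile
  have hE : ((E ^ (4 ^ m) : F) : ℝ ≃o ℝ) (pt m i) = (1 + (i : ℝ) / 2 ^ m) / 4 := by
    have e1 : 2 ^ (4 ^ m) * pt m i = (1 + (i : ℝ) / 2 ^ m) / 4 := by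
      rw [pt, pow_add]
      field_simp
      ring
    have e2 : (i : ℝ) / 2 ^ m ≤ 1 := by
      rw [div_le_one hp2]; exact_mod_cast hile
    rw [E_pow _ _ (by unfold pt; positivity) (by rw [e1]; linarith), e1]
  set y' : ℝ := (1 + (i : ℝ) / 2 ^ m) / 4 with hy'
  rw [mul_apply, mul_apply, inv_inv, mul_apply, hE] at hfix
  have h5 := congrArg (fun z => ((k * E ^ (4 ^ m) : F) : ℝ ≃o ℝ) z) hfix
  rw [apply_inv_self, mul_apply, hE] at h5
  apply hη q hqQ y' _ h5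
  have e3 : y' - y q = (i - (4 * y q - 1) * 2 ^ m) / 2 ^ (m + 2) := by
    rw [hy', pow_add]
    field_simp
    ring
  rw [e3, abs_div, abs_of_pos (by positivity : (0 : ℝ) < 2 ^ (m + 2))]
  refine lt_of_le_of_lt ?_ (hm q hqQ)
  apply div_le_div_of_nonneg_right _ (by positivity)
  rw [abs_le]
  constructor <;> linarith


/-! ### Short elements with disjoint supports -/

/-- The two contractions of the interval `(1/4, 1/2)` into itself. -/
noncomputable def α (b : Bool) : F := if b then (T 3 1 (by norm_num))⁻¹ else T 3 2 (by norm_num)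

theorem α_false (x : ℝ) (h1 : 1 / 4 < x) (h2 : x < 1 / 2) :
    1 / 4 < (α false : ℝ ≃o ℝ) x ∧ (α false : ℝ ≃o ℝ) x < 3 / 8 := by
  have e1 : ((2 : ℕ) : ℝ) / 2 ^ 3 = 1 / 4 := by norm_num
  have e2 : (1 : ℝ) / 2 ^ 3 = 1 / 8 := by norm_num
  have e : (α false : ℝ ≃o ℝ) x = tFun (1 / 4) (1 / 8) x := by
    show (T 3 2 (by norm_num) : ℝ ≃o ℝ) x = _
    rw [T_apply, e1, e2]
  rw [e, tFun]
  constructor <;> split_ifs <;> linarith

theorem α_true (x : ℝ) (h1 : 1 / 4 < x) (h2 : x < 1 / 2) :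
    3 / 8 < (α true : ℝ ≃o ℝ) x ∧ (α true : ℝ ≃o ℝ) x < 1 / 2 := by
  have e1 : ((1 : ℕ) : ℝ) / 2 ^ 3 = 1 / 8 := by norm_num
  have e2 : (1 : ℝ) / 2 ^ 3 = 1 / 8 := by norm_num
  have e : (α true : ℝ ≃o ℝ) x = tInv (1 / 8) (1 / 8) x := by
    show (((T 3 1 (by norm_num))⁻¹ : F) : ℝ ≃o ℝ) x = _
    rw [T_inv_apply, e1, e2]
  rw [e, tInv]
  constructor <;> split_ifs <;> linarith

/-- The products of the contractions. -/
noncomputable def aw : List Bool → F
  | [] => 1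
  | b :: w => α b * aw w

theorem aw_mem (w : List Bool) (x : ℝ) (h1 : 1 / 4 < x) (h2 : x < 1 / 2) :
    1 / 4 < (aw w : ℝ ≃o ℝ) x ∧ (aw w : ℝ ≃o ℝ) x < 1 / 2 := by
  induction w with
  | nil => exact ⟨h1, h2⟩
  | cons b w ih =>
    rw [aw, mul_apply]
    cases b
    · have := α_false _ ih.1 ih.2
      constructor <;> linarith
    · have := α_true _ ih.1 ih.2
      constructor <;> linarith

theorem aw_disjoint (w w' : List Bool) (hl : w.length = w'.length) (x x' : ℝ) (h1 : 1 / 4 < x)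
    (h2 : x < 1 / 2) (h1' : 1 / 4 < x') (h2' : x' < 1 / 2)
    (h : (aw w : ℝ ≃o ℝ) x = (aw w' : ℝ ≃o ℝ) x') : w = w' := by
  induction w generalizing w' with
  | nil => exact (List.length_eq_zero_iff.1 hl.symm).symm
  | cons b w ih =>
    cases w' with
    | nil => simp at hl
    | cons b' w' =>
      rw [aw, aw, mul_apply, mul_apply] at h
      have m1 := aw_mem w x h1 h2
      have m2 := aw_mem w' x' h1' h2'
      have hb : b = b' := by
        cases b <;> cases b'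
        · rfl
        · have e1 := α_false _ m1.1 m1.2
          have e2 := α_true _ m2.1 m2.2
          rw [h] at e1
          linarith
        · have e1 := α_true _ m1.1 m1.2
          have e2 := α_false _ m2.1 m2.2
          rw [h] at e1
          linarith
        · rfl
      subst hb
      have h' := (α b : ℝ ≃o ℝ).injective h
      rw [ih w' (by simpa using hl) h']

/-- A nontrivial element supported in `(1/4, 1/2)`. -/
noncomputable def γ : F := T 4 4 (by norm_num)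

theorem γ_supp (x : ℝ) (hx : (γ : ℝ ≃o ℝ) x ≠ x) : 1 / 4 < x ∧ x < 1 / 2 := by
  have e1 : ((4 : ℕ) : ℝ) / 2 ^ 4 = 1 / 4 := by norm_num
  have e2 : (1 : ℝ) / 2 ^ 4 = 1 / 16 := by norm_num
  have e : (γ : ℝ ≃o ℝ) x = tFun (1 / 4) (1 / 16) x := by
    rw [γ, T_apply, e1, e2]
  rw [e, tFun] at hx
  constructor
  · by_contra h
    push Not at h
    apply hx
    rw [if_pos h]
  · by_contra h
    push Not at h
    apply hx
    split_ifs <;> linarith

theorem γ_ne : γ ≠ 1 := by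
  intro h
  have e1 : ((4 : ℕ) : ℝ) / 2 ^ 4 = 1 / 4 := by norm_num
  have e2 : (1 : ℝ) / 2 ^ 4 = 1 / 16 := by norm_num
  have e : (γ : ℝ ≃o ℝ) (3 / 8) = tFun (1 / 4) (1 / 16) (3 / 8) := by
    rw [γ, T_apply, e1, e2]
  have e' : (γ : ℝ ≃o ℝ) (3 / 8) = 3 / 8 := by rw [h]; rfl
  rw [e', tFun] at e
  norm_num at e

/-- The conjugates of `γ`. -/
noncomputable def γw (w : List Bool) : F := aw w * γ * (aw w)⁻¹

theorem γw_ne (w : List Bool) : γw w ≠ 1 := by
  intro h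
  apply γ_ne
  rw [γw, mul_inv_eq_one, mul_eq_left] at h
  exact h

theorem γw_supp (w : List Bool) (z : ℝ) (hz : (γw w : ℝ ≃o ℝ) z ≠ z) :
    ∃ x : ℝ, 1 / 4 < x ∧ x < 1 / 2 ∧ z = (aw w : ℝ ≃o ℝ) x := by
  refine ⟨(((aw w)⁻¹ : F) : ℝ ≃o ℝ) z, ?_, ?_, (apply_inv_self _ _).symm⟩ <;>
  · have h : (γ : ℝ ≃o ℝ) ((((aw w)⁻¹ : F) : ℝ ≃o ℝ) z) ≠ (((aw w)⁻¹ : F) : ℝ ≃o ℝ) z := by
      intro h
      apply hz
      rw [γw, mul_apply, mul_apply, h, apply_inv_self]
    first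
      | exact (γ_supp _ h).1
      | exact (γ_supp _ h).2

/-! ### Word metrics and Schreier graphs -/

/-- The ball of radius `n` of `F` with respect to `S`: products of at most `n` elements of
`S ∪ S⁻¹`. -/
def ball (S : Finset F) (n : ℕ) : Set F :=
  {g | ∃ l : List F, l.length ≤ n ∧ (∀ x ∈ l, x ∈ S ∨ x⁻¹ ∈ S) ∧ l.prod = g}

/-- The vertices of the Schreier graph: the right cosets `K g`. -/
abbrev Sch (K : Subgroup F) : Type := Quotient (QuotientGroup.rightRel K)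

/-- The right coset `K g`. -/
def coset (K : Subgroup F) (g : F) : Sch K := Quotient.mk _ g

/-- `K g ↦ K g x`. -/
def act (K : Subgroup F) (v : Sch K) (x : F) : Sch K :=
  Quotient.map (fun g => g * x) (by
    intro a b h
    have h' : b * a⁻¹ ∈ K := QuotientGroup.rightRel_apply.1 h
    refine QuotientGroup.rightRel_apply.2 ?_
    have : b * x * (a * x)⁻¹ = b * a⁻¹ := by group
    rw [this]
    exact h') v

theorem act_coset (K : Subgroup F) (g x : F) : act K (coset K g) x = coset K (g * x) := rfl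

theorem coset_eq (K : Subgroup F) (g g' : F) : coset K g = coset K g' ↔ g' * g⁻¹ ∈ K := by
  rw [coset, coset, Quotient.eq, QuotientGroup.rightRel_apply]

theorem act_one (K : Subgroup F) (v : Sch K) : act K v 1 = v := by
  induction v using Quotient.inductionOn with
  | h g => exact congrArg (coset K) (mul_one g)

theorem act_mul (K : Subgroup F) (v : Sch K) (x y : F) : act K v (x * y) = act K (act K v x) y := by
  induction v using Quotient.inductionOn with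
  | h g => exact congrArg (coset K) (mul_assoc g x y).symm

/-- The ball of radius `n` about `v` in the Schreier graph. -/
def sball (K : Subgroup F) (S : Finset F) (v : Sch K) (n : ℕ) : Set (Sch K) :=
  {u | ∃ x ∈ ball S n, u = act K v x}

/-- `v` is a copy of the ball of radius `n` of the Cayley graph of `F` inside the ball of (real)
radius `R` about the root: the ball of radius `n` about `v` is contained in the ball of radius `R`
about the root and is isomorphic, as a rooted graph with directed labelled edges, to the ball of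
radius `n` of the Cayley graph. -/
def IsCopy (K : Subgroup F) (S : Finset F) (n : ℕ) (R : ℝ) (v : Sch K) : Prop :=
  (∀ u ∈ sball K S v n, ∃ m : ℕ, (m : ℝ) ≤ R ∧ u ∈ sball K S (coset K 1) m) ∧
  ∃ θ : F → Sch K, θ 1 = v ∧ Set.BijOn θ (ball S n) (sball K S v n) ∧
    ∀ x ∈ ball S n, ∀ y ∈ ball S n, ∀ s ∈ S, (x * s = y ↔ act K (θ x) s = θ y)


theorem one_mem_ball (S : Finset F) (n : ℕ) : (1 : F) ∈ ball S n := ⟨[], by simp, by simp, rfl⟩

theorem ball_mul {S : Finset F} {m n : ℕ} {a b : F} (ha : a ∈ ball S m) (hb : b ∈ ball S n) :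
    a * b ∈ ball S (m + n) := by
  obtain ⟨l, h1, h2, rfl⟩ := ha
  obtain ⟨l', h3, h4, rfl⟩ := hb
  refine ⟨l ++ l', by rw [List.length_append]; omega, ?_, List.prod_append⟩
  intro x hx
  rcases List.mem_append.1 hx with hx | hx
  · exact h2 x hx
  · exact h4 x hx

theorem ball_mono {S : Finset F} {m n : ℕ} (h : m ≤ n) : ball S m ⊆ ball S n := by
  rintro _ ⟨l, h1, h2, rfl⟩
  exact ⟨l, h1.trans h, h2, rfl⟩

theorem ball_inv {S : Finset F} {n : ℕ} {a : F} (ha : a ∈ ball S n) : a⁻¹ ∈ ball S n := by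
  obtain ⟨l, h1, h2, rfl⟩ := ha
  refine ⟨(l.map fun x => x⁻¹).reverse, by simpa using h1, ?_, by rw [List.prod_inv_reverse]⟩
  intro x hx
  rw [List.mem_reverse, List.mem_map] at hx
  obtain ⟨y, hy, rfl⟩ := hx
  rw [inv_inv]
  exact (h2 y hy).symm

theorem exists_ball {S : Finset F} (hS : Subgroup.closure (S : Set F) = ⊤) (g : F) :
    ∃ n, g ∈ ball S n := by
  have hg : g ∈ Subgroup.closure (S : Set F) := by rw [hS]; trivial
  induction hg using Subgroup.closure_induction with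
  | mem x hx => exact ⟨1, [x], by simp, by simpa using Or.inl hx, by simp⟩
  | one => exact ⟨0, one_mem_ball S 0⟩
  | mul a b _ _ ha hb =>
    obtain ⟨m, hm⟩ := ha
    obtain ⟨n, hn⟩ := hb
    exact ⟨m + n, ball_mul hm hn⟩
  | inv a _ ha =>
    obtain ⟨m, hm⟩ := ha
    exact ⟨m, ball_inv hm⟩

/-- In a copy, short nontrivial elements do not fix the vertex. -/
theorem copy_free {K : Subgroup F} {S : Finset F} {n : ℕ} {R : ℝ} {v : Sch K}
    (h : IsCopy K S n R v) : ∃ (m : ℕ) (g : F), (m : ℝ) ≤ R ∧ g ∈ ball S m ∧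
      ∀ x ∈ ball S n, x ≠ 1 → g * x * g⁻¹ ∉ K := by
  obtain ⟨h1, θ, h2, h3, h4⟩ := h
  obtain ⟨m, hm, g, hg, hv⟩ := h1 v ⟨1, one_mem_ball S n, (act_one K v).symm⟩
  rw [act_coset, one_mul] at hv
  refine ⟨m, g, hm, hg, ?_⟩
  have key : ∀ l : List F, l.length ≤ n → (∀ x ∈ l, x ∈ S ∨ x⁻¹ ∈ S) →
      θ l.prod = act K v l.prod := by
    intro l
    induction l using List.reverseRecOn with
    | nil => intro _ _; rw [List.prod_nil, h2, act_one]
    | append_singleton l s ih =>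
      intro hl hx
      rw [List.length_append, List.length_singleton] at hl
      have hx' : ∀ x ∈ l, x ∈ S ∨ x⁻¹ ∈ S := fun x hxl => hx x (List.mem_append_left _ hxl)
      have ih' := ih (by omega) hx'
      have m1 : l.prod ∈ ball S n := ⟨l, by omega, hx', rfl⟩
      have m2 : (l ++ [s]).prod ∈ ball S n :=
        ⟨l ++ [s], by rw [List.length_append, List.length_singleton]; omega, hx, rfl⟩
      have e : (l ++ [s]).prod = l.prod * s := by simp
      have e2 : act K v (l ++ [s]).prod = act K (θ l.prod) s := by rw [e, act_mul, ih']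
      rw [e2]
      rcases hx s (by simp) with hs | hs
      · exact ((h4 _ m1 _ m2 s hs).1 e.symm).symm
      · have h5 := (h4 _ m2 _ m1 s⁻¹ hs).1 (by rw [e]; group)
        rw [← h5, ← act_mul, inv_mul_cancel, act_one]
  intro x hx hx1 hxK
  apply hx1
  apply h3.injOn hx (one_mem_ball S n)
  obtain ⟨l, hl1, hl2, rfl⟩ := hx
  rw [key l hl1 hl2, h2, hv, act_coset, coset_eq]
  have : g * (g * l.prod)⁻¹ = (g * l.prod * g⁻¹)⁻¹ := by group
  rw [this]
  exact K.inv_mem hxK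

/-- A common lower bound for the generators. -/
theorem exists_lam (S : Finset F) : ∃ lam : ℕ, ∀ s : F, (s ∈ S ∨ s⁻¹ ∈ S) →
    ∀ x : ℝ, 0 ≤ x → x ≤ 1 → x / 2 ^ lam ≤ (s : ℝ ≃o ℝ) x := by
  choose m hm using lower
  refine ⟨∑ s ∈ S, (m s + m s⁻¹), fun s hs x h0 h1 => ?_⟩
  have hle : m s ≤ ∑ s ∈ S, (m s + m s⁻¹) := by
    rcases hs with hs | hs
    · have := Finset.single_le_sum (f := fun s => m s + m s⁻¹) (fun _ _ => Nat.zero_le _) hs
      omega
    · have := Finset.single_le_sum (f := fun s => m s + m s⁻¹) (fun _ _ => Nat.zero_le _) hs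
      simp only [inv_inv] at this
      omega
  refine le_trans ?_ (hm s x h0 h1)
  apply div_le_div_of_nonneg_left h0 (by positivity)
  exact pow_le_pow_right₀ (by norm_num) hle

theorem lower_word (S : Finset F) (lam : ℕ) (hlam : ∀ s : F, (s ∈ S ∨ s⁻¹ ∈ S) →
    ∀ x : ℝ, 0 ≤ x → x ≤ 1 → x / 2 ^ lam ≤ (s : ℝ ≃o ℝ) x) (r : ℕ) (g : F) (hg : g ∈ ball S r)
    (x : ℝ) (h0 : 0 ≤ x) (h1 : x ≤ 1) : x / 2 ^ (lam * r) ≤ (g : ℝ ≃o ℝ) x := by
  obtain ⟨l, hl, hS, rfl⟩ := hg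
  have key : x / 2 ^ (lam * l.length) ≤ (l.prod : ℝ ≃o ℝ) x := by
    clear hl
    induction l with
    | nil => simp
    | cons s l ih =>
      have ih' := ih fun y hy => hS y (List.mem_cons_of_mem _ hy)
      have hm := maps_unit l.prod x h0 h1
      have h2 := hlam s (hS s List.mem_cons_self) _ hm.1 hm.2
      rw [List.prod_cons, mul_apply, List.length_cons, mul_add, mul_one, pow_add, ← div_div]
      refine le_trans ?_ h2
      gcongr
  refine le_trans ?_ key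
  apply div_le_div_of_nonneg_left h0 (by positivity)
  exact pow_le_pow_right₀ (by norm_num) (Nat.mul_le_mul_left _ hl)

theorem counting (S : Finset F) (lam : ℕ) (hlam : ∀ s : F, (s ∈ S ∨ s⁻¹ ∈ S) →
    ∀ x : ℝ, 0 ≤ x → x ≤ 1 → x / 2 ^ lam ≤ (s : ℝ ≃o ℝ) x) (r k : ℕ) (g : F) (hg : g ∈ ball S r)
    (h : ∀ w : List Bool, w.length = k → g * γw w * g⁻¹ ∉ H) :
    2 ^ k ≤ (lam * r + 2) ^ 2 := by
  have h' : ∀ w : Fin k → Bool, ∃ m i : ℕ, i ≤ 2 ^ m ∧
      ((g * γw (List.ofFn w) * g⁻¹ : F) : ℝ ≃o ℝ) (pt m i) ≠ pt m i := by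
    intro w
    have h1 := h (List.ofFn w) (by simp)
    rw [mem_H] at h1
    push Not at h1
    exact h1
  choose m i hi hne using h'
  -- the moved points
  have hz : ∀ w : Fin k → Bool, ∃ x : ℝ, 1 / 4 < x ∧ x < 1 / 2 ∧
      ((g⁻¹ : F) : ℝ ≃o ℝ) (pt (m w) (i w)) = (aw (List.ofFn w) : ℝ ≃o ℝ) x := by
    intro w
    apply γw_supp
    intro h1
    apply hne w
    rw [mul_apply, mul_apply, h1, apply_inv_self]
  choose x hx1 hx2 hx3 using hz
  have hbound : ∀ w : Fin k → Bool, 4 ^ (m w) < lam * r + 2 := by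
    intro w
    have hmem := aw_mem (List.ofFn w) (x w) (hx1 w) (hx2 w)
    rw [← hx3 w] at hmem
    set z : ℝ := ((g⁻¹ : F) : ℝ ≃o ℝ) (pt (m w) (i w)) with hz
    have h1 := lower_word S lam hlam r g hg z (by linarith) (by linarith)
    rw [hz, apply_inv_self, ← hz] at h1
    have h2 : pt (m w) (i w) ≤ 2 / 2 ^ (4 ^ (m w) + 2) := by
      unfold pt
      gcongr
      have : (i w : ℝ) / 2 ^ (m w) ≤ 1 := by
        rw [div_le_one (by positivity)]; exact_mod_cast hi w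
      linarith
    have h3 : (1 / 4 : ℝ) / 2 ^ (lam * r) < 2 / 2 ^ (4 ^ (m w) + 2) := by
      refine lt_of_lt_of_le ?_ (h1.trans h2)
      apply div_lt_div_of_pos_right hmem.1 (by positivity)
    rw [div_lt_div_iff₀ (by positivity) (by positivity)] at h3
    have h4 : (2 : ℝ) ^ (4 ^ (m w) + 2) < 2 ^ (lam * r + 3) := by
      rw [pow_add _ _ 3]; linarith
    have h5 := (pow_lt_pow_iff_right₀ (by norm_num : (1 : ℝ) < 2)).1 h4
    omega
  have hm : ∀ w : Fin k → Bool, m w < lam * r + 2 := fun w =>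
    lt_trans (Nat.lt_pow_self (by norm_num)) (hbound w)
  have hi' : ∀ w : Fin k → Bool, i w < lam * r + 2 := fun w =>
    lt_of_le_of_lt ((hi w).trans (Nat.pow_le_pow_left (by norm_num) _)) (hbound w)
  have hinj : Function.Injective (fun w : Fin k → Bool =>
      ((⟨m w, hm w⟩, ⟨i w, hi' w⟩) : Fin (lam * r + 2) × Fin (lam * r + 2))) := by
    intro w w' hww
    simp only [Prod.mk.injEq, Fin.mk.injEq] at hww
    apply List.ofFn_injective
    refine aw_disjoint _ _ (by simp) (x w) (x w') (hx1 w) (hx2 w) (hx1 w') (hx2 w') ?_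
    rw [← hx3 w, ← hx3 w', hww.1, hww.2]
  have := Fintype.card_le_of_injective _ hinj
  simpa [sq] using this

theorem growth (A c : ℕ) (hc : 0 < c) : ∃ n₀, ∀ n ≥ n₀, (A * n + 2) ^ 2 < 2 ^ (n / c) := by
  have h := tendsto_pow_const_div_const_pow_of_one_lt 2 (r := (2 : ℝ)) (by norm_num)
  set B : ℕ := (A * c + 2) ^ 2 with hB
  have hBpos : (0 : ℝ) < 1 / (2 * B) := by positivity
  obtain ⟨q₀, hq₀⟩ := eventually_atTop.1 ((tendsto_order.1 h).2 _ hBpos)
  refine ⟨c * q₀, fun n hn => ?_⟩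
  have hq : q₀ ≤ n / c := (Nat.le_div_iff_mul_le hc).2 (by rw [mul_comm]; exact hn)
  have h1 := hq₀ (n / c + 1) (by omega)
  set q := n / c with hqdef
  have h2 : n < c * (q + 1) := Nat.lt_mul_div_succ n hc
  rw [div_lt_div_iff₀ (by positivity) (by positivity)] at h1
  have h3 : B * (q + 1) ^ 2 < 2 ^ q := by
    have h4 : (((q + 1 : ℕ) : ℝ)) ^ 2 * (2 * B) < 2 ^ (q + 1) := by simpa using h1
    have h5 : (((B * (q + 1) ^ 2 : ℕ)) : ℝ) < ((2 ^ q : ℕ) : ℝ) := by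
      push_cast at h4 ⊢
      rw [pow_succ (2 : ℝ) q] at h4
      linarith
    exact_mod_cast h5
  refine lt_of_le_of_lt ?_ h3
  rw [hB, ← mul_pow]
  apply Nat.pow_le_pow_left
  calc A * n + 2 ≤ A * (c * (q + 1)) + 2 * (q + 1) := by
        have := Nat.mul_le_mul_left A h2.le
        omega
    _ = _ := by ring

/-- **Main theorem.**  There is a non-confined subgroup `K` of Thompson's group `F` such that, for
every finite generating set `S` of `F` and every constant `C`, for all but finitely many `n` the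
ball of radius `C n` about the root of the Schreier graph of `K` contains no copy of the ball of
radius `n` of the Cayley graph of `F`. -/
theorem result : ∃ K : Subgroup F, ¬ Confined K ∧
    ∀ S : Finset F, Subgroup.closure (S : Set F) = ⊤ → ∀ C : ℝ, ∃ n₀ : ℕ, ∀ n ≥ n₀,
      ¬ ∃ v : Sch K, IsCopy K S n (C * n) v := by
  refine ⟨H, not_confined, fun S hS C => ?_⟩
  obtain ⟨lam, hlam⟩ := exists_lam S
  -- the lengths of the elementary elements
  obtain ⟨c₁, hc₁⟩ := exists_ball hS (α true)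
  obtain ⟨c₂, hc₂⟩ := exists_ball hS (α false)
  obtain ⟨c₃, hc₃⟩ := exists_ball hS γ
  set c : ℕ := c₁ + c₂ + c₃ + 1 with hc
  have hα : ∀ b, α b ∈ ball S c := by
    intro b
    cases b
    · exact ball_mono (by omega) hc₂
    · exact ball_mono (by omega) hc₁
  have haw : ∀ w : List Bool, aw w ∈ ball S (c * w.length) := by
    intro w
    induction w with
    | nil => exact one_mem_ball _ _
    | cons b w ih =>
      rw [aw, List.length_cons, mul_add, mul_one, add_comm]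
      exact ball_mul (hα b) ih
  have hγw : ∀ w : List Bool, γw w ∈ ball S (c * (2 * w.length + 1)) := by
    intro w
    have h1 := ball_mul (ball_mul (haw w) (ball_mono (by omega : c₃ ≤ c) hc₃)) (ball_inv (haw w))
    refine ball_mono ?_ h1
    apply le_of_eq
    ring
  obtain ⟨C', hC'⟩ := exists_nat_ge C
  obtain ⟨n₀, hn₀⟩ := growth (lam * C') (4 * c) (by omega)
  refine ⟨max n₀ (4 * c), fun n hn => ?_⟩
  rintro ⟨v, hv⟩
  have hn1 : n₀ ≤ n := le_trans (le_max_left _ _) hn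
  have hn2 : 4 * c ≤ n := le_trans (le_max_right _ _) hn
  obtain ⟨r, g, hr, hg, hfree⟩ := copy_free hv
  set k : ℕ := n / (4 * c) with hk
  have hkn : c * (2 * k + 1) ≤ n := by
    have h1 : 4 * c * k ≤ n := Nat.mul_div_le n (4 * c)
    have h2 : c * (2 * k + 1) = 2 * c * k + c := by ring
    have h3 : 4 * c * k = 2 * (2 * c * k) := by ring
    omega
  have hcount := counting S lam hlam r k g hg (fun w hw =>
    hfree _ (ball_mono (by rw [hw]; exact hkn) (hγw w)) (γw_ne w))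
  have hrn : r ≤ C' * n := by
    have h1 : (r : ℝ) ≤ C' * n := hr.trans (by gcongr)
    exact_mod_cast h1
  have h5 := hn₀ n hn1
  rw [← hk] at h5
  have h6 : (lam * r + 2) ^ 2 ≤ (lam * C' * n + 2) ^ 2 := by
    apply Nat.pow_le_pow_left
    have := Nat.mul_le_mul_left lam hrn
    rw [← mul_assoc] at this
    omega
  omega

end Pool.Agent.Results.MP_f4dda6_al.SparseNets
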